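import Pool.Agent.E8helper11.GS.Stm2

/-!
# Project GS: piece BIGd (adapted from `Pool/Agent/E8helper57/GS/BIG.lean`)
-/

set_option autoImplicit false

open Filter Topology
open scoped Classical

namespace Pool.Agent.E8helper12.GS

open Pool.Agent.E8helper11.GS

lemma Ms_mono (m : ℕ → ℕ) {a b : ℕ} (h : a ≤ b) : Ms m a ≤ Ms m b :=
  Finset.sum_le_sum_of_subset (Finset.range_mono h)

lemma pow_four (k : ℕ) : ((4 : ℝ) ^ ((1 / 8 : ℝ) * k)) ^ 4 = 2 ^ k := by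
  have h : ((4 : ℝ) ^ ((1 / 8 : ℝ) * k)) ^ 4 = (4 : ℝ) ^ ((1 / 2 : ℝ) * k) := by
    rw [← Real.rpow_natCast, ← Real.rpow_mul (by norm_num)]
    congr 1
    push_cast
    ring
  rw [h, Real.rpow_mul (by norm_num), Real.rpow_natCast]
  congr 1
  rw [← Real.sqrt_eq_rpow, show (4 : ℝ) = 2 ^ 2 by norm_num, Real.sqrt_sq (by norm_num)]

lemma growth {m : ℕ → ℕ}
    (hS : ∀ᶠ k : ℕ in atTop, (m k : ℝ) ≤ (4 : ℝ) ^ ((1 / 8 : ℝ) * k)) : ∀ᶠ k : ℕ in atTop, (Ms m (k + 1)) ^ 4 ≤ 4 ^ k := by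
  obtain ⟨i0, hi0⟩ := eventually_atTop.1 hS
  have hpoly : ∀ᶠ k : ℕ in atTop, ((Ms m i0 + k + 1 : ℕ) : ℝ) ^ 4 ≤ 2 ^ k := by
    have h1 := tendsto_pow_const_div_const_pow_of_one_lt 4 (by norm_num : (1 : ℝ) < 2)
    have h2 : Tendsto (fun k : ℕ => Ms m i0 + k + 1) atTop atTop :=
      tendsto_atTop_mono (fun k => show k ≤ Ms m i0 + k + 1 by omega) tendsto_id
    have h3 := h1.comp h2
    have h4 : (0 : ℝ) < 1 / 2 ^ (Ms m i0 + 1) := by positivity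
    filter_upwards [h3.eventually (gt_mem_nhds h4)] with k hk
    simp only [Function.comp_apply] at hk
    rw [div_lt_div_iff₀ (by positivity) (by positivity), one_mul] at hk
    have e : (2 : ℝ) ^ (Ms m i0 + k + 1) = 2 ^ k * 2 ^ (Ms m i0 + 1) := by
      rw [← pow_add]
      congr 1
      omega
    rw [e] at hk
    exact (lt_of_mul_lt_mul_right hk (by positivity)).le
  filter_upwards [hpoly, eventually_ge_atTop i0] with k hk hki
  have hw1 : (1 : ℝ) ≤ (4 : ℝ) ^ ((1 / 8 : ℝ) * k) :=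
    Real.one_le_rpow (by norm_num) (by positivity)
  have hMs : (Ms m (k + 1) : ℝ) ≤ ((Ms m i0 + k + 1 : ℕ) : ℝ) * (4 : ℝ) ^ ((1 / 8 : ℝ) * k) := by
    have e1 : Ms m (k + 1) = Ms m i0 + ∑ i ∈ Finset.Ico i0 (k + 1), m i := by
      unfold Ms
      rw [Finset.sum_range_add_sum_Ico _ (by omega)]
    have e2 : ((∑ i ∈ Finset.Ico i0 (k + 1), m i : ℕ) : ℝ) ≤
        ((k : ℝ) + 1) * (4 : ℝ) ^ ((1 / 8 : ℝ) * k) := by
      rw [Nat.cast_sum]
      have h5 : ∀ i ∈ Finset.Ico i0 (k + 1), (m i : ℝ) ≤ (4 : ℝ) ^ ((1 / 8 : ℝ) * k) := by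
        intro i hi
        rw [Finset.mem_Ico] at hi
        refine (hi0 i hi.1).trans (Real.rpow_le_rpow_of_exponent_le (by norm_num) ?_)
        have : (i : ℝ) ≤ k := by exact_mod_cast (by omega : i ≤ k)
        linarith
      refine (Finset.sum_le_card_nsmul _ _ _ h5).trans ?_
      rw [nsmul_eq_mul, Nat.card_Ico]
      refine mul_le_mul_of_nonneg_right ?_ (by positivity)
      have : ((k + 1 - i0 : ℕ) : ℝ) ≤ ((k + 1 : ℕ) : ℝ) := by exact_mod_cast Nat.sub_le _ _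
      push_cast at this
      exact this
    rw [e1]
    push_cast at e2 ⊢
    have h6 : (Ms m i0 : ℝ) * 1 ≤ (Ms m i0 : ℝ) * (4 : ℝ) ^ ((1 / 8 : ℝ) * k) :=
      mul_le_mul_of_nonneg_left hw1 (Nat.cast_nonneg _)
    nlinarith
  have h7 : (Ms m (k + 1) : ℝ) ^ 4 ≤ 4 ^ k := by
    calc (Ms m (k + 1) : ℝ) ^ 4 ≤
        (((Ms m i0 + k + 1 : ℕ) : ℝ) * (4 : ℝ) ^ ((1 / 8 : ℝ) * k)) ^ 4 :=
          pow_le_pow_left₀ (Nat.cast_nonneg _) hMs 4
      _ = ((Ms m i0 + k + 1 : ℕ) : ℝ) ^ 4 * 2 ^ k := by rw [mul_pow, pow_four]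
      _ ≤ 2 ^ k * 2 ^ k := mul_le_mul_of_nonneg_right hk (by positivity)
      _ = 4 ^ k := by
          rw [← mul_pow]
          norm_num
  exact_mod_cast h7

theorem t_BIGd : S_BIGd := by
  intro m u δ hδ hδ1 hu h2 hP hS hL
  have hS' : ∀ᶠ k : ℕ in atTop, (m k : ℝ) ≤ (4 : ℝ) ^ ((1 / 8 : ℝ) * k) := by
    filter_upwards [hS] with k hk
    refine hk.trans (Real.rpow_le_rpow_of_exponent_le (by norm_num) ?_)
    exact mul_le_mul_of_nonneg_right (by linarith) (Nat.cast_nonneg k)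
  obtain ⟨k0, hk0⟩ := eventually_atTop.1 (growth hS')
  refine eventually_atTop.2 ⟨(Ms m k0) ^ 2, fun j hj l hl => ?_⟩
  have hul := h2 l
  have a1 : 4 ^ Nat.log 4 (u l) ≤ u l := Nat.pow_log_le_self 4 (by omega)
  have a2 : u l < 4 ^ (Nat.log 4 (u l) + 1) := Nat.lt_pow_succ_log_self (by norm_num) _
  have a3 := (hP l _).1 a2
  rcases Nat.lt_or_ge (Nat.log 4 (u l)) k0 with h | h
  · exfalso
    have h3 : l < Ms m k0 := lt_of_lt_of_le a3 (Ms_mono m h)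
    have h4 : l ^ 2 < Ms m k0 ^ 2 := Nat.pow_lt_pow_left h3 (by norm_num)
    omega
  · have h3 := hk0 _ h
    have h4 : l ^ 4 < Ms m (Nat.log 4 (u l) + 1) ^ 4 := Nat.pow_lt_pow_left a3 (by norm_num)
    have h5 : j ^ 2 ≤ (l ^ 2) ^ 2 := Nat.pow_le_pow_left hl 2
    calc j ^ 2 ≤ (l ^ 2) ^ 2 := h5
      _ = l ^ 4 := by ring
      _ < Ms m (Nat.log 4 (u l) + 1) ^ 4 := h4
      _ ≤ 4 ^ Nat.log 4 (u l) := h3
      _ ≤ u l := a1

end Pool.Agent.E8helper12.GS
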